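import Mathlib
import Pool.Agent.H71.BanachCore

set_option autoImplicit false

namespace Pool.Agent.Results.MP_76953b_al.FiniteBoundary

open Filter Topology

/-- `wordLen S g` is the least length of a list of elements of `S` whose product is `g`. -/
noncomputable def wordLen {G : Type*} [Group G] (S : Set G) (g : G) : ℕ :=
  sInf {n | ∃ l : List G, l.length = n ∧ (∀ s ∈ l, s ∈ S) ∧ l.prod = g}

/-- The metric-functional boundary of `(G, d)`: all pointwise limits of
`y ↦ d (x n) y - d (x n) 1` along sequences `x` with `d (x n) 1 → ∞`. -/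
def boundary {G : Type*} [Group G] (d : G → G → ℝ) : Set (G → ℝ) :=
  {f | ∃ x : ℕ → G, Tendsto (fun n => d (x n) 1) atTop atTop ∧
    ∀ y, Tendsto (fun n => d (x n) y - d (x n) 1) atTop (𝓝 (f y))}

/-- Banach metrics on a group. -/
structure IsBanachMetric {G : Type*} [Group G] (d : G → G → ℝ) : Prop where
  /-- `d` is a metric -/
  dist_self : ∀ x, d x x = 0
  eq_of_dist_eq_zero : ∀ x y, d x y = 0 → x = y
  symm : ∀ x y, d x y = d y x
  triangle : ∀ x y z, d x z ≤ d x y + d y z
  /-- `d` takes integer values -/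
  integer : ∀ x y, ∃ n : ℤ, d x y = n
  /-- `d` is left-invariant -/
  left_inv : ∀ g x y, d (g * x) (g * y) = d x y
  /-- `d` is proper -/
  proper : ∀ (x : G) (r : ℝ), {y | d x y ≤ r}.Finite
  /-- `d` is quasi-isometric to a Cayley metric via the identity map -/
  quasiIsometric : ∃ S : Set G, S.Finite ∧ (∀ s ∈ S, s⁻¹ ∈ S) ∧ Subgroup.closure S = ⊤ ∧
    ∃ A B : ℝ, 1 ≤ A ∧ 0 ≤ B ∧ ∀ x y,
      (1 / A) * (wordLen S (x⁻¹ * y) : ℝ) - B ≤ d x y ∧
        d x y ≤ A * (wordLen S (x⁻¹ * y) : ℝ) + B
  /-- every element of the boundary is unbounded -/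
  unbounded : ∀ f ∈ boundary d, ¬ ∃ C : ℝ, ∀ y, |f y| ≤ C

/-- A group is virtually cyclic if it has a cyclic subgroup of finite index. -/
def IsVirtuallyCyclic (G : Type*) [Group G] : Prop :=
  ∃ H : Subgroup G, IsCyclic H ∧ H.FiniteIndex

theorem int_limit (k : ℕ → ℤ) (a : ℝ) (h : Tendsto (fun n => (k n : ℝ)) atTop (𝓝 a)) :
    ∃ c : ℤ, a = c ∧ ∀ᶠ n in atTop, k n = c := by
  have hmem : a ∈ Set.range ((↑) : ℤ → ℝ) :=
    Int.isClosedEmbedding_coe_real.isClosed_range.mem_of_tendsto h
      (Eventually.of_forall fun n => ⟨k n, rfl⟩)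
  obtain ⟨c, rfl⟩ := hmem
  refine ⟨c, rfl, ?_⟩
  have h2 : Tendsto k atTop (𝓝 c) := by
    rw [Int.isClosedEmbedding_coe_real.isEmbedding.tendsto_nhds_iff]
    exact h
  rw [nhds_discrete] at h2
  exact h2 (by simp : {c} ∈ (pure c : Filter ℤ))

theorem boundary_translate {G : Type*} [Group G] {d : G → G → ℝ} (hd : IsBanachMetric d)
    (f : G → ℝ) (hf : f ∈ boundary d) (g : G) :
    (fun y => f (g⁻¹ * y) - f g⁻¹) ∈ boundary d := by
  obtain ⟨x, hx, hlim⟩ := hf
  have key : ∀ n y, d (g * x n) y = d (x n) (g⁻¹ * y) := by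
    intro n y
    have := hd.left_inv g (x n) (g⁻¹ * y)
    rw [mul_inv_cancel_left] at this
    exact this
  refine ⟨fun n => g * x n, ?_, ?_⟩
  · have h1 : ∀ n, d (x n) 1 - d g⁻¹ 1 ≤ d (g * x n) 1 := by
      intro n
      rw [key, mul_one]
      have := hd.triangle (x n) g⁻¹ 1
      linarith
    exact tendsto_atTop_mono h1 (tendsto_atTop_add_const_right _ _ hx)
  · intro y
    have h2 := (hlim (g⁻¹ * y)).sub (hlim g⁻¹)
    refine h2.congr ?_
    intro n
    rw [key, key, mul_one]; ring

theorem result {G : Type*} [Group G] (hFG : Group.FG G) (hG : ¬ IsVirtuallyCyclic G)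
    (d : G → G → ℝ) (hd : IsBanachMetric d) : (boundary d).Infinite := by
  classical
  intro hfin
  apply hG
  choose dz hdz using hd.integer
  set N : G → ℤ := fun g => dz 1 g with hN
  have hNd : ∀ g, (N g : ℝ) = d 1 g := fun g => (hdz 1 g).symm
  have hdxy : ∀ x y, d x y = (N (x⁻¹ * y) : ℝ) := by
    intro x y
    rw [hNd]
    have := hd.left_inv x⁻¹ x y
    rw [inv_mul_cancel] at this
    exact this.symm
  have hnn : ∀ x y, 0 ≤ d x y := by
    intro x y
    have h1 := hd.triangle x y x
    rw [hd.dist_self, hd.symm y x] at h1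
    linarith
  have hN0 : ∀ g, 0 ≤ N g := by
    intro g
    have := hnn 1 g
    rw [← hNd] at this
    exact_mod_cast this
  have hN1 : N 1 = 0 := by
    have := hNd 1
    rw [hd.dist_self] at this
    exact_mod_cast this
  have hprop : ∀ r : ℤ, {g | N g ≤ r}.Finite := by
    intro r
    refine (hd.proper 1 r).subset ?_
    intro g hg
    show d 1 g ≤ r
    rw [← hNd]
    exact_mod_cast hg
  set D : Set (G → ℤ) := {f | (fun y => (f y : ℝ)) ∈ boundary d} with hDdef
  have hD : D.Finite := by
    have hinj : Function.Injective (fun (f : G → ℤ) => (fun y => (f y : ℝ) : G → ℝ)) := by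
      intro f f' h
      funext y
      have := congrFun h y
      simp only [Int.cast_inj] at this
      exact this
    exact hfin.preimage hinj.injOn
  have hcount : Countable G := by
    rw [← Set.countable_univ_iff]
    have : (Set.univ : Set G) = ⋃ n : ℕ, {g | N g ≤ (n : ℤ)} := by
      ext g
      simp only [Set.mem_univ, Set.mem_iUnion, true_iff]
      exact ⟨(N g).toNat, Int.self_le_toNat _⟩
    rw [this]
    exact Set.countable_iUnion fun n => (hprop n).countable
  have hA : ∀ F : Finset G, ∀ᶠ z in cofinite, ∃ f ∈ D, ∀ y ∈ F, N (z * y) - N z = f y := by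
    intro F
    rw [Filter.eventually_cofinite]
    by_contra hinf
    have hinf' : Set.Infinite {z | ¬ ∃ f ∈ D, ∀ y ∈ F, N (z * y) - N z = f y} := hinf
    set z : ℕ → G := fun n => ((hinf'.natEmbedding _ n : _) : G) with hz
    have hzinj : Function.Injective z := by
      intro a b hab
      exact (hinf'.natEmbedding _).injective (Subtype.ext hab)
    have hzmem : ∀ n, ¬ ∃ f ∈ D, ∀ y ∈ F, N (z n * y) - N (z n) = f y := fun n =>
      (hinf'.natEmbedding _ n).2
    have htri : ∀ g h, |N (g * h) - N g| ≤ N h := by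
      intro g h
      have e1 := hd.triangle 1 g (g * h)
      have e2 := hd.triangle 1 (g * h) g
      have e3 : d g (g * h) = d 1 h := by
        have := hd.left_inv g 1 h
        rw [mul_one] at this; exact this
      rw [hd.symm (g * h) g, e3] at e2
      rw [e3] at e1
      rw [← hNd, ← hNd, ← hNd] at e1 e2
      have e1' : N (g * h) ≤ N g + N h := by exact_mod_cast e1
      have e2' : N g ≤ N (g * h) + N h := by exact_mod_cast e2
      rw [abs_le]; constructor <;> linarith
    set u : ℕ → G → ℝ := fun n y => ((N (z n * y) - N (z n) : ℤ) : ℝ) with hu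
    have hcpt : IsCompact (Set.pi Set.univ (fun y : G => Set.Icc (-(N y : ℝ)) (N y))) :=
      isCompact_univ_pi fun y => isCompact_Icc
    have humem : ∀ n, u n ∈ Set.pi Set.univ (fun y : G => Set.Icc (-(N y : ℝ)) (N y)) := by
      intro n y _
      have := abs_le.mp (htri (z n) y)
      constructor
      · have h := this.1
        show -(N y : ℝ) ≤ ((N (z n * y) - N (z n) : ℤ) : ℝ)
        exact_mod_cast h
      · have h := this.2
        show ((N (z n * y) - N (z n) : ℤ) : ℝ) ≤ N y
        exact_mod_cast h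
    obtain ⟨a, -, φ, hφ, hlim⟩ := hcpt.tendsto_subseq humem
    rw [tendsto_pi_nhds] at hlim
    have hch : ∀ y, ∃ c : ℤ, a y = c ∧ ∀ᶠ n in atTop, N (z (φ n) * y) - N (z (φ n)) = c :=
      fun y => int_limit _ _ (hlim y)
    choose c hc hc' using hch
    have hcD : c ∈ D := by
      show (fun y => (c y : ℝ)) ∈ boundary d
      refine ⟨fun n => (z (φ n))⁻¹, ?_, ?_⟩
      · have e : ∀ n, d (z (φ n))⁻¹ 1 = (N (z (φ n)) : ℝ) := by
          intro n; rw [hdxy]; simp
        simp only [e]
        rw [tendsto_atTop]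
        intro b
        have hfinb : {n | N (z (φ n)) ≤ ⌈b⌉}.Finite := by
          have : {n | N (z (φ n)) ≤ ⌈b⌉} = (fun n => z (φ n)) ⁻¹' {g | N g ≤ ⌈b⌉} := rfl
          rw [this]
          exact (hprop _).preimage (hzinj.comp hφ.injective).injOn
        have hev : ∀ᶠ n in atTop, ¬ (N (z (φ n)) ≤ ⌈b⌉) := by
          rw [← Nat.cofinite_eq_atTop, Filter.eventually_cofinite]
          simpa using hfinb
        filter_upwards [hev] with n hn
        push Not at hn
        have : (⌈b⌉ : ℝ) ≤ N (z (φ n)) := by exact_mod_cast hn.le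
        exact (Int.le_ceil b).trans this
      · intro y
        have e := hlim y
        rw [hc y] at e
        refine e.congr ?_
        intro n
        rw [hdxy, hdxy]
        simp [hu]
    have hev : ∀ᶠ n in atTop, ∀ y ∈ F, N (z (φ n) * y) - N (z (φ n)) = c y := by
      rw [Filter.eventually_all_finset]
      intro y _
      exact hc' y
    obtain ⟨n, hn⟩ := hev.exists
    exact hzmem (φ n) ⟨c, hcD, hn⟩
  have hB : ∀ f ∈ D, ∀ g : G, (fun y => f (g⁻¹ * y) - f g⁻¹) ∈ D := by
    intro f hf g
    have := boundary_translate hd _ hf g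
    show (fun y => ((f (g⁻¹ * y) - f g⁻¹ : ℤ) : ℝ)) ∈ boundary d
    simpa using this
  have h1 : ∀ f ∈ D, f 1 = 0 := by
    intro f hf
    obtain ⟨x, hx, hlim⟩ := hf
    have e := hlim 1
    simp only [sub_self] at e
    have := tendsto_nhds_unique e tendsto_const_nhds
    exact_mod_cast this
  have hunb : ∀ f ∈ D, ¬ ∃ C : ℤ, ∀ y, |f y| ≤ C := by
    rintro f hf ⟨C, hC⟩
    apply hd.unbounded _ hf
    refine ⟨C, fun y => ?_⟩
    have := hC y
    exact_mod_cast this
  exact Pool.Agent.H71.BanachCore.core hFG N hN0 hN1 hprop D hD hA hB h1 hunb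

end Pool.Agent.Results.MP_76953b_al.FiniteBoundary
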